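import Pool.Agent.Helper93.CLTd.Polar

/-! Angular Fourier coefficients of Schwartz functions of the plane. -/

namespace Pool.Agent.Helper93.CLTd

open MeasureTheory Set Pool.Agent.Helper98.CLTd LineDeriv
open scoped ComplexConjugate ENNReal SchwartzMap Real

noncomputable def e0 : E2 := EuclideanSpace.single 0 1
noncomputable def e1 : E2 := EuclideanSpace.single 1 1

noncomputable def dP (φ : 𝓢(E2, ℂ)) : 𝓢(E2, ℂ) := ∂_{e0} φ - Complex.I • ∂_{e1} φ
noncomputable def dM (φ : 𝓢(E2, ℂ)) : 𝓢(E2, ℂ) := ∂_{e0} φ + Complex.I • ∂_{e1} φ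

lemma dP_apply (φ : 𝓢(E2, ℂ)) (x : E2) :
    dP φ x = fderiv ℝ φ x e0 - Complex.I * fderiv ℝ φ x e1 := rfl

lemma dM_apply (φ : 𝓢(E2, ℂ)) (x : E2) :
    dM φ x = fderiv ℝ φ x e0 + Complex.I * fderiv ℝ φ x e1 := rfl

/-- `exp(i m θ)`. -/
noncomputable def ex (m : ℤ) (θ : ℝ) : ℂ := Complex.exp ((m : ℂ) * θ * Complex.I)

lemma ex_add (m n : ℤ) (θ : ℝ) : ex (m + n) θ = ex m θ * ex n θ := by
  unfold ex
  rw [← Complex.exp_add]; congr 1; push_cast; ring

lemma norm_ex (m : ℤ) (θ : ℝ) : ‖ex m θ‖ = 1 := by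
  unfold ex
  rw [show (m : ℂ) * θ * Complex.I = ((m * θ : ℝ) : ℂ) * Complex.I by push_cast; ring]
  exact Complex.norm_exp_ofReal_mul_I _

lemma continuous_ex (m : ℤ) : Continuous (ex m) := by
  unfold ex; fun_prop

lemma hasDerivAt_ex (m : ℤ) (θ : ℝ) : HasDerivAt (ex m) (((m : ℂ) * Complex.I) * ex m θ) θ := by
  have h1 : HasDerivAt (fun θ : ℝ => ((m : ℂ) * θ * Complex.I)) ((m : ℂ) * 1 * Complex.I) θ :=
    ((Complex.ofRealCLM.hasDerivAt (x := θ)).const_mul (m : ℂ)).mul_const Complex.I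
  have h2 := h1.cexp
  unfold ex
  rw [show (m : ℂ) * Complex.I * Complex.exp ((m : ℂ) * θ * Complex.I)
    = Complex.exp ((m : ℂ) * θ * Complex.I) * ((m : ℂ) * 1 * Complex.I) by ring]
  exact h2

lemma ex_pi (m : ℤ) : ex m π = ex m (-π) := by
  unfold ex
  rw [Complex.exp_eq_exp_iff_exists_int]
  exact ⟨m, by push_cast; ring⟩

lemma ex_one (θ : ℝ) : ex 1 θ = Real.cos θ + Real.sin θ * Complex.I := by
  unfold ex
  push_cast
  rw [one_mul, Complex.exp_mul_I]

lemma ex_neg_one (θ : ℝ) : ex (-1) θ = Real.cos θ - Real.sin θ * Complex.I := by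
  unfold ex
  push_cast
  rw [show (-1 : ℂ) * θ * Complex.I = (-(θ : ℂ)) * Complex.I by ring, Complex.exp_mul_I,
    Complex.cos_neg, Complex.sin_neg]
  ring

/-- the derivative of `dir`. -/
noncomputable def dir' (θ : ℝ) : E2 := (-Real.sin θ) • e0 + Real.cos θ • e1

lemma dir_eq (θ : ℝ) : dir θ = Real.cos θ • e0 + Real.sin θ • e1 := by
  ext i
  fin_cases i
  · simp [dir, e0, e1]
  · simp [dir, e0, e1]

lemma hasDerivAt_dir (θ : ℝ) : HasDerivAt dir (dir' θ) θ := by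
  have h : dir = fun θ => Real.cos θ • e0 + Real.sin θ • e1 := funext dir_eq
  rw [h]
  exact ((Real.hasDerivAt_cos θ).smul_const e0).add ((Real.hasDerivAt_sin θ).smul_const e1)

lemma dir_pi : dir π = dir (-π) := by
  rw [dir_eq, dir_eq]; simp

lemma fderiv_dir (φ : 𝓢(E2, ℂ)) (x : E2) (θ : ℝ) :
    fderiv ℝ φ x (dir θ) = (1 / 2) * (ex 1 θ * dP φ x + ex (-1) θ * dM φ x) := by
  rw [dir_eq, map_add, map_smul, map_smul, dP_apply, dM_apply, ex_one, ex_neg_one,
    Complex.real_smul, Complex.real_smul]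
  linear_combination ((Real.sin θ : ℂ) * fderiv ℝ φ x e1) * (Complex.I_sq)

lemma fderiv_dir' (φ : 𝓢(E2, ℂ)) (x : E2) (θ : ℝ) :
    Complex.I * fderiv ℝ φ x (dir' θ) = (1 / 2) * (ex (-1) θ * dM φ x - ex 1 θ * dP φ x) := by
  rw [dir', map_add, map_smul, map_smul, dP_apply, dM_apply, ex_one, ex_neg_one,
    Complex.real_smul, Complex.real_smul]
  push_cast
  ring

/-- Angular Fourier coefficient. -/
noncomputable def Ac (m : ℤ) (φ : 𝓢(E2, ℂ)) (r : ℝ) : ℂ :=
  ∫ θ in (-π)..π, ex m θ * φ (pt r θ)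

lemma schwartz_bound (ψ : 𝓢(E2, ℂ)) (k : ℕ) :
    ∃ C : ℝ, 0 ≤ C ∧ ∀ x, ‖ψ x‖ ≤ C / (1 + ‖x‖) ^ k := by
  refine ⟨2 ^ k * ((Finset.Iic (k, 0)).sup (fun m => SchwartzMap.seminorm ℝ m.1 m.2) ψ),
    mul_nonneg (by positivity) (apply_nonneg _ _), ?_⟩
  intro x
  have h := SchwartzMap.one_add_le_sup_seminorm_apply (𝕜 := ℝ) (m := (k, 0)) (k := k) (n := 0)
    le_rfl le_rfl ψ x
  rw [norm_iteratedFDeriv_zero] at h
  rw [le_div_iff₀ (by positivity), mul_comm]
  exact h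

lemma continuous_pt_left (r : ℝ) : Continuous (fun θ => pt r θ) :=
  continuous_pt.comp (continuous_const.prodMk continuous_id)

lemma continuous_Ac_integrand (m : ℤ) (φ : 𝓢(E2, ℂ)) (r : ℝ) :
    Continuous (fun θ => ex m θ * φ (pt r θ)) :=
  (continuous_ex m).mul (φ.continuous.comp (continuous_pt_left r))

lemma Ac_bound (m : ℤ) (ψ : 𝓢(E2, ℂ)) (k : ℕ) :
    ∃ C : ℝ, 0 ≤ C ∧ ∀ r, 0 < r → ‖Ac m ψ r‖ ≤ C / (1 + r) ^ k := by
  obtain ⟨C, hC0, hC⟩ := schwartz_bound ψ k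
  refine ⟨2 * π * C, by positivity, ?_⟩
  intro r hr
  have h1 : ‖Ac m ψ r‖ ≤ (C / (1 + r) ^ k) * |π - (-π)| := by
    apply intervalIntegral.norm_integral_le_of_norm_le_const
    intro θ _
    rw [norm_mul, norm_ex, one_mul]
    have := hC (pt r θ)
    rwa [norm_pt, abs_of_pos hr] at this
  refine h1.trans (le_of_eq ?_)
  rw [show π - (-π) = 2 * π by ring, abs_of_pos (by positivity)]
  ring

lemma hasDerivAt_pt_r (r θ : ℝ) : HasDerivAt (fun r => pt r θ) (dir θ) r := by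
  unfold pt
  have := (hasDerivAt_id r).smul_const (dir θ)
  simpa using this

lemma hasDerivAt_pt_θ (r θ : ℝ) : HasDerivAt (fun θ => pt r θ) (r • dir' θ) θ := by
  unfold pt
  exact (hasDerivAt_dir θ).const_smul r

theorem hasDerivAt_Ac (m : ℤ) (φ : 𝓢(E2, ℂ)) (r : ℝ) :
    HasDerivAt (Ac m φ) ((1 / 2) * (Ac (m + 1) (dP φ) r + Ac (m - 1) (dM φ) r)) r := by
  obtain ⟨C1, hC10, hC1⟩ := schwartz_bound (dP φ) 0
  obtain ⟨C2, hC20, hC2⟩ := schwartz_bound (dM φ) 0
  have hF' : ∀ r θ : ℝ, ex m θ * fderiv ℝ φ (pt r θ) (dir θ)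
      = (1 / 2) * (ex (m + 1) θ * dP φ (pt r θ) + ex (m - 1) θ * dM φ (pt r θ)) := by
    intro r θ
    rw [fderiv_dir, ex_add, sub_eq_add_neg, ex_add]; ring
  have h := intervalIntegral.hasDerivAt_integral_of_dominated_loc_of_deriv_le
    (μ := volume) (a := -π) (b := π) (s := univ) (x₀ := r)
    (F := fun r θ => ex m θ * φ (pt r θ))
    (F' := fun r θ => ex m θ * fderiv ℝ φ (pt r θ) (dir θ))
    (bound := fun _ => (1 / 2) * (C1 + C2))
    Filter.univ_mem
    (Filter.Eventually.of_forall fun r =>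
      (continuous_Ac_integrand m φ r).aestronglyMeasurable)
    ((continuous_Ac_integrand m φ r).intervalIntegrable _ _)
    (by
      simp_rw [hF']
      exact (continuous_const.mul ((continuous_Ac_integrand _ _ _).add
        (continuous_Ac_integrand _ _ _))).aestronglyMeasurable)
    (by
      filter_upwards with θ _ r _
      simp only [hF']
      rw [norm_mul]
      have e1 := hC1 (pt r θ)
      have e2 := hC2 (pt r θ)
      rw [pow_zero, div_one] at e1 e2
      have e3 : ‖ex (m + 1) θ * dP φ (pt r θ) + ex (m - 1) θ * dM φ (pt r θ)‖ ≤ C1 + C2 := by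
        refine (norm_add_le _ _).trans ?_
        rw [norm_mul, norm_mul, norm_ex, norm_ex, one_mul, one_mul]
        exact add_le_add e1 e2
      have e4 : ‖(1 / 2 : ℂ)‖ = 1 / 2 := by norm_num
      rw [e4]
      exact mul_le_mul_of_nonneg_left e3 (by norm_num))
    (continuous_const.intervalIntegrable _ _)
    (by
      filter_upwards with θ _ r _
      have h1 : HasDerivAt (fun r => φ (pt r θ)) (fderiv ℝ φ (pt r θ) (dir θ)) r :=
        (φ.hasFDerivAt (pt r θ)).comp_hasDerivAt r (hasDerivAt_pt_r r θ)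
      exact h1.const_mul (ex m θ))
  have h2 := h.2
  simp_rw [hF'] at h2
  rw [intervalIntegral.integral_const_mul, intervalIntegral.integral_add
    ((continuous_Ac_integrand _ _ _).intervalIntegrable _ _)
    ((continuous_Ac_integrand _ _ _).intervalIntegrable _ _)] at h2
  exact h2

theorem mul_Ac (m : ℤ) (φ : 𝓢(E2, ℂ)) (r : ℝ) :
    (m : ℂ) * Ac m φ r = (r / 2) * (Ac (m - 1) (dM φ) r - Ac (m + 1) (dP φ) r) := by
  have hd : ∀ θ : ℝ, HasDerivAt (fun θ => Complex.I * (ex m θ * φ (pt r θ)))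
      (-(m : ℂ) * (ex m θ * φ (pt r θ)) + (r / 2) * (ex (m - 1) θ * dM φ (pt r θ)
        - ex (m + 1) θ * dP φ (pt r θ))) θ := by
    intro θ
    have h1 : HasDerivAt (fun θ => φ (pt r θ)) (fderiv ℝ φ (pt r θ) (r • dir' θ)) θ :=
      (φ.hasFDerivAt (pt r θ)).comp_hasDerivAt θ (hasDerivAt_pt_θ r θ)
    have h2 := ((hasDerivAt_ex m θ).mul h1).const_mul Complex.I
    refine HasDerivAt.congr_deriv h2 ?_
    rw [map_smul, Complex.real_smul, ex_add m 1, show m - 1 = m + (-1) by ring, ex_add m (-1)]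
    have h3 := fderiv_dir' φ (pt r θ) θ
    linear_combination ((m : ℂ) * ex m θ * φ (pt r θ)) * (Complex.I_sq)
      + (r : ℂ) * ex m θ * h3
  have hc : Continuous fun θ : ℝ => (-(m : ℂ) * (ex m θ * φ (pt r θ)) +
      (r / 2) * (ex (m - 1) θ * dM φ (pt r θ) - ex (m + 1) θ * dP φ (pt r θ))) :=
    (continuous_const.mul (continuous_Ac_integrand _ _ _)).add
      (continuous_const.mul ((continuous_Ac_integrand _ _ _).sub (continuous_Ac_integrand _ _ _)))
  have h := intervalIntegral.integral_eq_sub_of_hasDerivAt (a := -π) (b := π)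
    (fun θ _ => hd θ) (hc.intervalIntegrable _ _)
  have h0 : pt r π = pt r (-π) := by unfold pt; rw [dir_pi]
  rw [ex_pi, h0, sub_self] at h
  have c1 : Continuous fun θ : ℝ => (-(m : ℂ) * (ex m θ * φ (pt r θ))) :=
    continuous_const.mul (continuous_Ac_integrand _ _ _)
  have c2 : Continuous fun θ : ℝ => ((r : ℂ) / 2) * (ex (m - 1) θ * dM φ (pt r θ)
      - ex (m + 1) θ * dP φ (pt r θ)) :=
    continuous_const.mul ((continuous_Ac_integrand _ _ _).sub (continuous_Ac_integrand _ _ _))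
  rw [intervalIntegral.integral_add (c1.intervalIntegrable _ _) (c2.intervalIntegrable _ _),
    intervalIntegral.integral_const_mul, intervalIntegral.integral_const_mul,
    intervalIntegral.integral_sub
    ((continuous_Ac_integrand _ _ _).intervalIntegrable _ _)
    ((continuous_Ac_integrand _ _ _).intervalIntegrable _ _)] at h
  have h' : -(m : ℂ) * Ac m φ r + (r / 2) * (Ac (m - 1) (dM φ) r - Ac (m + 1) (dP φ) r) = 0 := h
  linear_combination -h'

/-- The Laplacian. -/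
noncomputable def lap (φ : 𝓢(E2, ℂ)) : 𝓢(E2, ℂ) := dP (dM φ)

lemma lap_apply (φ : 𝓢(E2, ℂ)) (x : E2) :
    lap φ x = ∑ i : Fin 2, fderiv ℝ (fun y => fderiv ℝ φ y (EuclideanSpace.single i 1)) x
            (EuclideanSpace.single i 1) := by
  have hs : ContDiff ℝ 2 φ := φ.smooth 2
  have hdiff : ∀ v : E2, DifferentiableAt ℝ (fun y => fderiv ℝ φ y v) x := by
    intro v
    exact ((∂_{v} φ : 𝓢(E2, ℂ)).differentiableAt : _)
  have h2 : ∀ v w : E2, fderiv ℝ (fun y => fderiv ℝ φ y v) x w = fderiv ℝ (fderiv ℝ φ) x w v := by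
    intro v w
    have hd : DifferentiableAt ℝ (fderiv ℝ φ) x :=
      (SchwartzMap.fderivCLM ℝ E2 ℂ φ).differentiableAt
    rw [fderiv_clm_apply hd (differentiableAt_const v)]
    simp
  have hsymm : IsSymmSndFDerivAt ℝ φ x := by
    refine (hs.contDiffAt (x := x)).isSymmSndFDerivAt ?_
    simp
  have h3 : fderiv ℝ (fun y => fderiv ℝ φ y e0) x e1 = fderiv ℝ (fun y => fderiv ℝ φ y e1) x e0 := by
    rw [h2, h2]; exact hsymm.eq e1 e0
  have h4 : ∀ w : E2, fderiv ℝ (dM φ) x w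
      = fderiv ℝ (fun y => fderiv ℝ φ y e0) x w + Complex.I * fderiv ℝ (fun y => fderiv ℝ φ y e1) x w := by
    intro w
    have h5 := (hdiff e0).hasFDerivAt.add ((hdiff e1).hasFDerivAt.const_smul Complex.I)
    have h6 : HasFDerivAt (dM φ) _ x := h5
    rw [h6.fderiv]
    rfl
  rw [lap, dP_apply, h4, h4, Fin.sum_univ_two]
  change _ = fderiv ℝ (fun y => fderiv ℝ φ y e0) x e0 + fderiv ℝ (fun y => fderiv ℝ φ y e1) x e1
  rw [h3]
  linear_combination (-fderiv ℝ (fun y => fderiv ℝ φ y e1) x e1) * Complex.I_sq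

end Pool.Agent.Helper93.CLTd
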