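import Pool.Agent.Helper93.CLTd.Angular

/-! The radial test functions attached to a Schwartz function of the plane. -/

namespace Pool.Agent.Helper93.CLTd

open MeasureTheory Set Pool.Agent.Helper98.CLTd LineDeriv
open scoped ComplexConjugate ENNReal SchwartzMap Real

noncomputable def A1 (m : ℤ) (φ : 𝓢(E2, ℂ)) (r : ℝ) : ℂ :=
  (1 / 2) * (Ac (m + 1) (dP φ) r + Ac (m - 1) (dM φ) r)

noncomputable def A2 (m : ℤ) (φ : 𝓢(E2, ℂ)) (r : ℝ) : ℂ :=
  (1 / 2) * (A1 (m + 1) (dP φ) r + A1 (m - 1) (dM φ) r)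

lemma hasDerivAt_A1 (m : ℤ) (φ : 𝓢(E2, ℂ)) (r : ℝ) : HasDerivAt (A1 m φ) (A2 m φ r) r :=
  ((hasDerivAt_Ac (m + 1) (dP φ) r).add (hasDerivAt_Ac (m - 1) (dM φ) r)).const_mul _

lemma Ac_dP (m : ℤ) (φ : 𝓢(E2, ℂ)) {r : ℝ} (hr : 0 < r) :
    Ac (m + 1) (dP φ) r = A1 m φ r - m / r * Ac m φ r := by
  have h := mul_Ac m φ r
  have hr' : (r : ℂ) ≠ 0 := by exact_mod_cast hr.ne'
  rw [A1]
  field_simp
  linear_combination (2 : ℂ) * h

lemma Ac_dM (m : ℤ) (φ : 𝓢(E2, ℂ)) {r : ℝ} (hr : 0 < r) :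
    Ac (m - 1) (dM φ) r = A1 m φ r + m / r * Ac m φ r := by
  have h := mul_Ac m φ r
  have hr' : (r : ℂ) ≠ 0 := by exact_mod_cast hr.ne'
  rw [A1]
  field_simp
  linear_combination (-2 : ℂ) * h

lemma hasDerivAt_inv' {r : ℝ} (hr : 0 < r) :
    HasDerivAt (fun r : ℝ => (1 / (r : ℂ))) (-1 / (r : ℂ) ^ 2) r := by
  have h1 := (hasDerivAt_inv hr.ne').ofReal_comp
  have h2 : (fun r : ℝ => ((r⁻¹ : ℝ) : ℂ)) = fun r : ℝ => (1 / (r : ℂ)) := by
    funext r; push_cast; rw [one_div]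
  rw [h2] at h1
  refine h1.congr_deriv ?_
  push_cast
  rw [neg_div, one_div]

theorem Ac_lap (m : ℤ) (φ : 𝓢(E2, ℂ)) {r : ℝ} (hr : 0 < r) :
    Ac m (lap φ) r = A2 m φ r + A1 m φ r / r - m ^ 2 / r ^ 2 * Ac m φ r := by
  have hr' : (r : ℂ) ≠ 0 := by exact_mod_cast hr.ne'
  have h1 := Ac_dP (m - 1) (dM φ) hr
  rw [sub_add_cancel] at h1
  have h2 := Ac_dM m φ hr
  have h3 : A1 (m - 1) (dM φ) r = A2 m φ r + (m * (-1 / (r : ℂ) ^ 2) * Ac m φ r
      + m * (1 / (r : ℂ)) * A1 m φ r) := by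
    have d1 : HasDerivAt (Ac (m - 1) (dM φ)) (A1 (m - 1) (dM φ) r) r := hasDerivAt_Ac _ _ _
    have d2 : HasDerivAt (fun r : ℝ => A1 m φ r + (m * (1 / (r : ℂ))) * Ac m φ r)
        (A2 m φ r + (m * (-1 / (r : ℂ) ^ 2) * Ac m φ r + m * (1 / (r : ℂ)) * A1 m φ r)) r :=
      (hasDerivAt_A1 m φ r).add (((hasDerivAt_inv' hr).const_mul (m : ℂ)).mul
        (hasDerivAt_Ac m φ r))
    refine d1.unique (d2.congr_of_eventuallyEq ?_)
    filter_upwards [eventually_gt_nhds hr] with t ht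
    rw [Ac_dM m φ ht]; ring
  rw [lap, h1, h3, h2]
  push_cast
  field_simp
  ring

noncomputable def c0 : ℝ := 1 / √(2 * π)

lemma c0_pos : 0 < c0 := by unfold c0; positivity

noncomputable def chi (m : ℤ) (φ : 𝓢(E2, ℂ)) (r : ℝ) : ℂ := c0 * ((√r : ℝ) * Ac m φ r)

noncomputable def chi' (m : ℤ) (φ : 𝓢(E2, ℂ)) (r : ℝ) : ℂ :=
  c0 * ((√r : ℝ) * A1 m φ r + ((1 / (2 * √r) : ℝ) : ℂ) * Ac m φ r)

noncomputable def chi'' (m : ℤ) (φ : 𝓢(E2, ℂ)) (r : ℝ) : ℂ :=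
  c0 * ((√r : ℝ) * A2 m φ r + ((1 / √r : ℝ) : ℂ) * A1 m φ r
    - ((1 / (4 * (r * √r)) : ℝ) : ℂ) * Ac m φ r)

lemma hasDerivAt_sqrt' {r : ℝ} (hr : 0 < r) :
    HasDerivAt (fun r : ℝ => ((√r : ℝ) : ℂ)) (((1 / (2 * √r) : ℝ) : ℂ)) r :=
  (Real.hasDerivAt_sqrt hr.ne').ofReal_comp

lemma hasDerivAt_inv_sqrt {r : ℝ} (hr : 0 < r) :
    HasDerivAt (fun r : ℝ => ((1 / (2 * √r) : ℝ) : ℂ)) ((-(1 / (4 * (r * √r))) : ℝ) : ℂ) r := by
  have h := ((Real.hasDerivAt_sqrt hr.ne').const_mul 2).inv (by positivity : 2 * √r ≠ 0)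
  have h2 := h.ofReal_comp
  have h3 : (fun r : ℝ => ((1 / (2 * √r) : ℝ) : ℂ)) = fun y => (((2 * √y)⁻¹ : ℝ) : ℂ) := by
    funext y; rw [one_div]
  rw [h3]
  refine h2.congr_deriv ?_
  congr 1
  have hs : √r * √r = r := Real.mul_self_sqrt hr.le
  have hs0 : √r ≠ 0 := by positivity
  field_simp
  nlinarith [hs]

lemma hasDerivAt_chi (m : ℤ) (φ : 𝓢(E2, ℂ)) {r : ℝ} (hr : 0 < r) :
    HasDerivAt (chi m φ) (chi' m φ r) r := by
  have h := ((hasDerivAt_sqrt' hr).mul (hasDerivAt_Ac m φ r)).const_mul (c0 : ℂ)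
  refine h.congr_deriv ?_
  rw [chi', ← A1]
  ring

lemma hasDerivAt_chi' (m : ℤ) (φ : 𝓢(E2, ℂ)) {r : ℝ} (hr : 0 < r) :
    HasDerivAt (chi' m φ) (chi'' m φ r) r := by
  have h := (((hasDerivAt_sqrt' hr).mul (hasDerivAt_A1 m φ r)).add
    ((hasDerivAt_inv_sqrt hr).mul (hasDerivAt_Ac m φ r))).const_mul (c0 : ℂ)
  refine h.congr_deriv ?_
  rw [chi'', ← A1]
  have : ((1 / √r : ℝ) : ℂ) = ((1 / (2 * √r) : ℝ) : ℂ) + ((1 / (2 * √r) : ℝ) : ℂ) := by
    push_cast; ring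
  rw [this]
  push_cast
  ring

lemma continuous_Ac (m : ℤ) (φ : 𝓢(E2, ℂ)) : Continuous (Ac m φ) :=
  continuous_iff_continuousAt.mpr fun r => (hasDerivAt_Ac m φ r).continuousAt

lemma continuous_A1 (m : ℤ) (φ : 𝓢(E2, ℂ)) : Continuous (A1 m φ) :=
  continuous_iff_continuousAt.mpr fun r => (hasDerivAt_A1 m φ r).continuousAt

lemma continuous_A2 (m : ℤ) (φ : 𝓢(E2, ℂ)) : Continuous (A2 m φ) :=
  continuous_const.mul ((continuous_A1 _ _).add (continuous_A1 _ _))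

lemma A1_bound (m : ℤ) (ψ : 𝓢(E2, ℂ)) (k : ℕ) :
    ∃ C : ℝ, 0 ≤ C ∧ ∀ r, 0 < r → ‖A1 m ψ r‖ ≤ C / (1 + r) ^ k := by
  obtain ⟨C1, h1, h1'⟩ := Ac_bound (m + 1) (dP ψ) k
  obtain ⟨C2, h2, h2'⟩ := Ac_bound (m - 1) (dM ψ) k
  refine ⟨1 / 2 * (C1 + C2), by positivity, fun r hr => ?_⟩
  rw [A1, norm_mul, show ‖(1 / 2 : ℂ)‖ = 1 / 2 by norm_num, mul_div_assoc]
  refine mul_le_mul_of_nonneg_left ((norm_add_le _ _).trans ?_) (by norm_num)
  rw [add_div]
  exact add_le_add (h1' r hr) (h2' r hr)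

lemma A2_bound (m : ℤ) (ψ : 𝓢(E2, ℂ)) (k : ℕ) :
    ∃ C : ℝ, 0 ≤ C ∧ ∀ r, 0 < r → ‖A2 m ψ r‖ ≤ C / (1 + r) ^ k := by
  obtain ⟨C1, h1, h1'⟩ := A1_bound (m + 1) (dP ψ) k
  obtain ⟨C2, h2, h2'⟩ := A1_bound (m - 1) (dM ψ) k
  refine ⟨1 / 2 * (C1 + C2), by positivity, fun r hr => ?_⟩
  rw [A2, norm_mul, show ‖(1 / 2 : ℂ)‖ = 1 / 2 by norm_num, mul_div_assoc]
  refine mul_le_mul_of_nonneg_left ((norm_add_le _ _).trans ?_) (by norm_num)
  rw [add_div]
  exact add_le_add (h1' r hr) (h2' r hr)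

lemma Ac_bound' (m : ℤ) (hm : m ≠ 0) (ψ : 𝓢(E2, ℂ)) (k : ℕ) :
    ∃ C : ℝ, 0 ≤ C ∧ ∀ r, 0 < r → ‖Ac m ψ r‖ ≤ C * r / (1 + r) ^ k := by
  obtain ⟨C1, h1, h1'⟩ := Ac_bound (m - 1) (dM ψ) k
  obtain ⟨C2, h2, h2'⟩ := Ac_bound (m + 1) (dP ψ) k
  refine ⟨1 / 2 * (C1 + C2), by positivity, fun r hr => ?_⟩
  have hm1 : (1 : ℝ) ≤ ‖(m : ℂ)‖ := by
    rw [Complex.norm_intCast]
    exact_mod_cast Int.one_le_abs hm
  have h3 : ‖Ac m ψ r‖ ≤ ‖(m : ℂ) * Ac m ψ r‖ := by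
    rw [norm_mul]
    exact le_mul_of_one_le_left (norm_nonneg _) hm1
  refine h3.trans ?_
  rw [mul_Ac, norm_mul]
  have h4 : ‖((r : ℂ) / 2)‖ = r / 2 := by
    rw [norm_div, Complex.norm_real, Real.norm_eq_abs, abs_of_pos hr]; norm_num
  rw [h4]
  have h5 : ‖Ac (m - 1) (dM ψ) r - Ac (m + 1) (dP ψ) r‖ ≤ (C1 + C2) / (1 + r) ^ k := by
    refine (norm_sub_le _ _).trans ?_
    rw [add_div]
    exact add_le_add (h1' r hr) (h2' r hr)
  calc r / 2 * ‖Ac (m - 1) (dM ψ) r - Ac (m + 1) (dP ψ) r‖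
      ≤ r / 2 * ((C1 + C2) / (1 + r) ^ k) := mul_le_mul_of_nonneg_left h5 (by positivity)
    _ = _ := by ring

theorem adm_chi (m : ℤ) (hm : m ≠ 0) (φ : 𝓢(E2, ℂ)) : Adm (chi m φ) (chi' m φ) (chi'' m φ) := by
  refine ⟨fun r hr => hasDerivAt_chi m φ hr, fun r hr => hasDerivAt_chi' m φ hr, ?_, ?_⟩
  · have h1 : ContinuousOn (fun r : ℝ => ((1 / √r : ℝ) : ℂ)) (Ioi 0) := by
      refine Complex.continuous_ofReal.comp_continuousOn ?_
      refine ContinuousOn.div continuousOn_const Real.continuous_sqrt.continuousOn ?_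
      intro r hr
      exact (Real.sqrt_pos.mpr hr).ne'
    have h2 : ContinuousOn (fun r : ℝ => ((1 / (4 * (r * √r)) : ℝ) : ℂ)) (Ioi 0) := by
      refine Complex.continuous_ofReal.comp_continuousOn ?_
      refine ContinuousOn.div continuousOn_const (by fun_prop) ?_
      intro r hr
      have h3 : 0 < √r := Real.sqrt_pos.mpr hr
      have h4 : 0 < r := hr
      positivity
    have h0 : ContinuousOn (fun r : ℝ => ((√r : ℝ) : ℂ)) (Ioi 0) :=
      (Complex.continuous_ofReal.comp Real.continuous_sqrt).continuousOn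
    exact continuousOn_const.mul (((h0.mul (continuous_A2 m φ).continuousOn).add
      (h1.mul (continuous_A1 m φ).continuousOn)).sub (h2.mul (continuous_Ac m φ).continuousOn))
  · obtain ⟨K0, k0, hK0⟩ := Ac_bound' m hm φ 4
    obtain ⟨K1, k1, hK1⟩ := A1_bound m φ 4
    obtain ⟨K2, k2, hK2⟩ := A2_bound m φ 5
    refine ⟨c0 * (K0 + K1 + K2), fun r hr => ?_⟩
    have hs : 0 < √r := Real.sqrt_pos.mpr hr
    have hss : √r * √r = r := Real.mul_self_sqrt hr.le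
    have p1 : r ^ (1 / 2 : ℝ) = √r := (Real.sqrt_eq_rpow r).symm
    have p3 : r ^ (3 / 2 : ℝ) = r * √r := by
      rw [show (3 / 2 : ℝ) = 1 + 1 / 2 by norm_num, Real.rpow_add hr, Real.rpow_one, p1]
    have pm : r ^ (-(1 / 2) : ℝ) = 1 / √r := by
      rw [Real.rpow_neg hr.le, p1, one_div]
    have hc := c0_pos
    have b0 := hK0 r hr
    have b1 := hK1 r hr
    have b2 := hK2 r hr
    rw [p1, p3, pm]
    have n0 : ‖(c0 : ℂ)‖ = c0 := by rw [Complex.norm_real, Real.norm_eq_abs, abs_of_pos hc]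
    have n1 : ‖((√r : ℝ) : ℂ)‖ = √r := by rw [Complex.norm_real, Real.norm_eq_abs, abs_of_pos hs]
    have n2 : ‖((1 / (2 * √r) : ℝ) : ℂ)‖ = 1 / (2 * √r) := by
      rw [Complex.norm_real, Real.norm_eq_abs, abs_of_pos (by positivity)]
    have n3 : ‖((1 / √r : ℝ) : ℂ)‖ = 1 / √r := by
      rw [Complex.norm_real, Real.norm_eq_abs, abs_of_pos (by positivity)]
    have n4 : ‖((1 / (4 * (r * √r)) : ℝ) : ℂ)‖ = 1 / (4 * (r * √r)) := by
      rw [Complex.norm_real, Real.norm_eq_abs, abs_of_pos (by positivity)]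
    set D : ℝ := (1 + r) ^ 4 with hD
    have hDpos : 0 < D := by positivity
    refine ⟨?_, ?_, ?_⟩
    · rw [chi, norm_mul, norm_mul, n0, n1]
      calc c0 * (√r * ‖Ac m φ r‖) ≤ c0 * (√r * (K0 * r / D)) := by gcongr
        _ = c0 * K0 * (r * √r) / D := by ring
        _ ≤ c0 * (K0 + K1 + K2) * (r * √r) / D := by
          gcongr
          linarith
    · rw [chi', norm_mul, n0]
      calc c0 * ‖(√r : ℝ) * A1 m φ r + ((1 / (2 * √r) : ℝ) : ℂ) * Ac m φ r‖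
          ≤ c0 * (√r * (K1 / D) + 1 / (2 * √r) * (K0 * r / D)) := by
            refine mul_le_mul_of_nonneg_left ((norm_add_le _ _).trans ?_) hc.le
            rw [norm_mul, norm_mul, n1, n2]
            gcongr
        _ = c0 * (K1 + K0 / 2) * √r / D := by
            have : (1 : ℝ) / (2 * √r) * (K0 * r / D) = K0 / 2 * √r / D := by
              rw [← hss]
              have hss2 : √(√r * √r) = √r := by rw [hss]
              rw [hss2]
              field_simp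
            rw [this]; ring
        _ ≤ c0 * (K0 + K1 + K2) * √r / D := by
          have hK : K1 + K0 / 2 ≤ K0 + K1 + K2 := by linarith
          exact div_le_div_of_nonneg_right (mul_le_mul_of_nonneg_right
            (mul_le_mul_of_nonneg_left hK hc.le) hs.le) hDpos.le
    · rw [chi'', norm_mul, n0]
      have hD5 : (1 + r) ^ 5 = D * (1 + r) := by rw [hD]; ring
      calc c0 * ‖((√r : ℝ) : ℂ) * A2 m φ r + ((1 / √r : ℝ) : ℂ) * A1 m φ r
            - ((1 / (4 * (r * √r)) : ℝ) : ℂ) * Ac m φ r‖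
          ≤ c0 * (√r * (K2 / (1 + r) ^ 5) + 1 / √r * (K1 / D) + 1 / (4 * (r * √r)) * (K0 * r / D)) := by
            refine mul_le_mul_of_nonneg_left ((norm_sub_le _ _).trans ?_) hc.le
            refine add_le_add ((norm_add_le _ _).trans ?_) ?_
            · rw [norm_mul, norm_mul, n1, n3]
              gcongr
            · rw [norm_mul, n4]
              gcongr
        _ ≤ c0 * ((K2 * (1 / √r) / D) + K1 * (1 / √r) / D + K0 * (1 / √r) / D) := by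
            have t1 : √r * (K2 / (1 + r) ^ 5) ≤ K2 * (1 / √r) / D := by
              rw [hD5]
              have : √r * (K2 / (D * (1 + r))) = K2 * (1 / √r) / D * (r / (1 + r)) := by
                have hr0 : (√r) ^ 2 = r := Real.sq_sqrt hr.le
                field_simp
                rw [hr0]
                ring
              rw [this]
              refine mul_le_of_le_one_right (by positivity) ?_
              rw [div_le_one (by positivity)]; linarith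
            have t2 : 1 / √r * (K1 / D) = K1 * (1 / √r) / D := by ring
            have t3 : 1 / (4 * (r * √r)) * (K0 * r / D) ≤ K0 * (1 / √r) / D := by
              have : 1 / (4 * (r * √r)) * (K0 * r / D) = (1 / 4) * (K0 * (1 / √r) / D) := by
                field_simp
              rw [this]
              have hpos : 0 ≤ K0 * (1 / √r) / D := by positivity
              linarith
            rw [t2]
            gcongr
        _ = c0 * (K0 + K1 + K2) * (1 / √r) / D := by ring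

/-- The radial form of the Laplacian. -/
theorem chi_lap (m : ℤ) (φ : 𝓢(E2, ℂ)) {r : ℝ} (hr : 0 < r) :
    chi m (lap φ) r = chi'' m φ r - (((m : ℂ) ^ 2 - 1 / 4) / (r : ℂ) ^ 2) * chi m φ r := by
  have hr' : (r : ℂ) ≠ 0 := by exact_mod_cast hr.ne'
  have hs : 0 < √r := Real.sqrt_pos.mpr hr
  have hs' : ((√r : ℝ) : ℂ) ≠ 0 := by exact_mod_cast hs.ne'
  have hss : ((√r : ℝ) : ℂ) ^ 2 = r := by
    rw [← Complex.ofReal_pow, Real.sq_sqrt hr.le]
  rw [chi, chi, chi'', Ac_lap m φ hr]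
  push_cast
  field_simp
  rw [hss]
  ring

end Pool.Agent.Helper93.CLTd
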