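import Pool.Agent.Helper93.CLTd.Chi

/-! The isometric embeddings of `L²(0,∞)` into `L²(ℝ²)` attached to the angular momenta. -/

namespace Pool.Agent.Helper93.CLTd

open MeasureTheory Set Pool.Agent.Helper98.CLTd LineDeriv
open scoped ComplexConjugate ENNReal SchwartzMap Real

noncomputable def ang (m : ℤ) (x : E2) : ℂ := (((x 0 : ℂ) + x 1 * Complex.I) / (‖x‖ : ℂ)) ^ m

lemma ang_pt (m : ℤ) {r : ℝ} (hr : 0 < r) (θ : ℝ) : ang m (pt r θ) = ex m θ := by
  have hr' : (r : ℂ) ≠ 0 := by exact_mod_cast hr.ne'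
  rw [ang, pt_zero', pt_one', norm_pt, abs_of_pos hr]
  have h1 : (((r * Real.cos θ : ℝ) : ℂ) + ((r * Real.sin θ : ℝ) : ℂ) * Complex.I) / (r : ℂ)
      = ex 1 θ := by
    rw [ex_one]
    push_cast
    field_simp
  rw [h1, ex, ex, ← Complex.exp_int_mul]
  congr 1
  push_cast
  ring

lemma measurable_coord (i : Fin 2) : Measurable (fun x : E2 => ((x i : ℝ) : ℂ)) := by
  refine Complex.measurable_ofReal.comp ?_
  exact (by fun_prop : Continuous (fun x : E2 => x i)).measurable

lemma measurable_ang (m : ℤ) : Measurable (ang m) := by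
  unfold ang
  have h : Measurable fun x : E2 => (((x 0 : ℂ) + x 1 * Complex.I) / (‖x‖ : ℂ)) :=
    ((measurable_coord 0).add ((measurable_coord 1).mul_const _)).div
      (Complex.measurable_ofReal.comp measurable_norm)
  cases m with
  | ofNat n =>
    simp only [Int.ofNat_eq_natCast, zpow_natCast]
    exact h.pow_const n
  | negSucc n =>
    simp only [zpow_negSucc]
    exact (h.pow_const (n + 1)).inv

/-- `(2 π |x|)^{-1/2} e^{i m θ} f(|x|)`. -/
noncomputable def embF (m : ℤ) (f : ℝ → ℂ) (x : E2) : ℂ :=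
  ((c0 / √‖x‖ : ℝ) : ℂ) * ang m x * f ‖x‖

lemma measurable_embF (m : ℤ) {f : ℝ → ℂ} (hf : Measurable f) : Measurable (embF m f) := by
  unfold embF
  refine ((Complex.measurable_ofReal.comp ?_).mul (measurable_ang m)).mul (hf.comp measurable_norm)
  exact measurable_const.div (Real.continuous_sqrt.measurable.comp measurable_norm)

lemma embF_pt (m : ℤ) (f : ℝ → ℂ) {r : ℝ} (hr : 0 < r) (θ : ℝ) :
    embF m f (pt r θ) = ((c0 / √r : ℝ) : ℂ) * ex m θ * f r := by
  rw [embF, ang_pt m hr, norm_pt, abs_of_pos hr]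

lemma c0_sq : c0 ^ 2 * (2 * π) = 1 := by
  unfold c0
  rw [div_pow, one_pow, Real.sq_sqrt (by positivity)]
  field_simp

lemma lintegral_embF (m : ℤ) {f : ℝ → ℂ} (hf : Measurable f) :
    ∫⁻ x, ‖embF m f x‖ₑ ^ (2 : ℝ) = ∫⁻ r, ‖f r‖ₑ ^ (2 : ℝ) ∂μ₀ := by
  rw [lintegral_polar ((measurable_embF m hf).enorm.pow_const _)]
  refine setLIntegral_congr_fun measurableSet_Ioi ?_
  intro r hr
  have hr0 : 0 < r := hr
  have hs : 0 < √r := Real.sqrt_pos.mpr hr0
  have h1 : ∀ θ, ENNReal.ofReal r * ‖embF m f (pt r θ)‖ₑ ^ (2 : ℝ)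
      = ENNReal.ofReal (c0 ^ 2) * ‖f r‖ₑ ^ (2 : ℝ) := by
    intro θ
    rw [embF_pt m f hr0, enorm_mul, enorm_mul]
    have h2 : ‖ex m θ‖ₑ = 1 := by rw [← ofReal_norm, norm_ex]; simp
    have h3 : ‖((c0 / √r : ℝ) : ℂ)‖ₑ = ENNReal.ofReal (c0 / √r) := by
      rw [← ofReal_norm, Complex.norm_real, Real.norm_eq_abs, abs_of_pos (div_pos c0_pos hs)]
    rw [h2, h3, mul_one, ENNReal.mul_rpow_of_nonneg _ _ (by norm_num), ← mul_assoc]
    congr 1
    rw [ENNReal.ofReal_rpow_of_nonneg (by positivity [c0_pos]) (by norm_num),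
      ← ENNReal.ofReal_mul hr0.le]
    congr 1
    have h4 : (√r) ^ 2 = r := Real.sq_sqrt hr0.le
    rw [show ((2 : ℝ)) = ((2 : ℕ) : ℝ) by norm_num, Real.rpow_natCast, div_pow, h4]
    field_simp
  simp_rw [h1]
  rw [lintegral_const, Measure.restrict_apply_univ, Real.volume_Ioo]
  rw [show π - -π = 2 * π by ring, mul_right_comm, ← ENNReal.ofReal_mul (by positivity), c0_sq]
  simp

lemma eLpNorm_embF (m : ℤ) {f : ℝ → ℂ} (hf : Measurable f) :
    eLpNorm (embF m f) 2 volume = eLpNorm f 2 μ₀ := by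
  rw [eLpNorm_eq_lintegral_rpow_enorm_toReal (by norm_num) (by norm_num),
    eLpNorm_eq_lintegral_rpow_enorm_toReal (by norm_num) (by norm_num)]
  have : (2 : ℝ≥0∞).toReal = (2 : ℝ) := by norm_num
  rw [this, lintegral_embF m hf]

lemma memLp_embF (m : ℤ) {f : ℝ → ℂ} (hf : Measurable f) (h : MemLp f 2 μ₀) :
    MemLp (embF m f) 2 volume :=
  ⟨(measurable_embF m hf).aestronglyMeasurable, by rw [eLpNorm_embF m hf]; exact h.2⟩

lemma measE (g : E) : Measurable (g : ℝ → ℂ) := (Lp.stronglyMeasurable g).measurable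

/-- The embedding of angular momentum `m`. -/
noncomputable def emb (m : ℤ) : E →ₗᵢ[ℂ] L2d 2 where
  toFun g := (memLp_embF m (measE g) (Lp.memLp g)).toLp _
  map_add' := by
    intro g h
    apply Lp.ext
    filter_upwards [MemLp.coeFn_toLp (memLp_embF m (measE (g + h)) (Lp.memLp (g + h))),
      MemLp.coeFn_toLp (memLp_embF m (measE g) (Lp.memLp g)),
      MemLp.coeFn_toLp (memLp_embF m (measE h) (Lp.memLp h)),
      Lp.coeFn_add ((memLp_embF m (measE g) (Lp.memLp g)).toLp _)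
        ((memLp_embF m (measE h) (Lp.memLp h)).toLp _),
      ae_norm (Lp.coeFn_add g h)] with x h1 h2 h3 h4 h5
    rw [h4, Pi.add_apply, h1, h2, h3, embF, embF, embF, h5, Pi.add_apply]
    ring
  map_smul' := by
    intro c g
    apply Lp.ext
    filter_upwards [MemLp.coeFn_toLp (memLp_embF m (measE (c • g)) (Lp.memLp (c • g))),
      MemLp.coeFn_toLp (memLp_embF m (measE g) (Lp.memLp g)),
      Lp.coeFn_smul c ((memLp_embF m (measE g) (Lp.memLp g)).toLp _),
      ae_norm (Lp.coeFn_smul c g)] with x h1 h2 h4 h5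
    simp only [RingHom.id_apply]
    rw [h4, Pi.smul_apply, h1, h2, embF, embF, h5, Pi.smul_apply, smul_eq_mul, smul_eq_mul]
    ring
  norm_map' := by
    intro g
    simp only [LinearMap.coe_mk, AddHom.coe_mk]
    rw [Lp.norm_toLp, Lp.norm_def, eLpNorm_embF m (measE g)]

lemma emb_ae (m : ℤ) (g : E) : ∀ᵐ x, emb m g x = embF m g x :=
  MemLp.coeFn_toLp (memLp_embF m (measE g) (Lp.memLp g))

lemma integral_ex {n : ℤ} (hn : n ≠ 0) : ∫ θ in Ioo (-π) π, ex n θ = 0 := by
  rw [← integral_Ioc_eq_integral_Ioo, ← intervalIntegral.integral_of_le (by linarith [Real.pi_pos])]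
  have hd : ∀ θ ∈ uIcc (-π) π, HasDerivAt (fun θ => (1 / ((n : ℂ) * Complex.I)) * ex n θ) (ex n θ) θ := by
    intro θ _
    refine ((hasDerivAt_ex n θ).const_mul (1 / ((n : ℂ) * Complex.I))).congr_deriv ?_
    have h1 : ((n : ℂ) * Complex.I) ≠ 0 := mul_ne_zero (by exact_mod_cast hn) Complex.I_ne_zero
    field_simp
  rw [intervalIntegral.integral_eq_sub_of_hasDerivAt hd ((continuous_ex n).intervalIntegrable _ _),
    ex_pi, sub_self]

lemma conj_ex (m : ℤ) (θ : ℝ) : conj (ex m θ) = ex (-m) θ := by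
  unfold ex
  rw [← Complex.exp_conj]
  congr 1
  simp

theorem inner_emb {m n : ℤ} (hmn : m ≠ n) (g h : E) :
    inner ℂ (emb m g) (emb n h) = 0 := by
  have e1 : inner ℂ (emb m g) (emb n h) = ∫ x, conj (embF m g x) * embF n h x := by
    rw [L2.inner_def]
    apply integral_congr_ae
    filter_upwards [emb_ae m g, emb_ae n h] with x h1 h2
    rw [h1, h2, RCLike.inner_apply]
    ring
  rw [e1]
  have m1 := memLp_embF m (measE g) (Lp.memLp g)
  have m2 := memLp_embF n (measE h) (Lp.memLp h)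
  have mm1 : Measurable fun x => conj (embF m g x) :=
    Complex.continuous_conj.measurable.comp (measurable_embF m (measE g))
  have m1c : MemLp (fun x => conj (embF m g x)) 2 volume := by
    refine m1.of_le mm1.aestronglyMeasurable ?_
    filter_upwards with x; simp
  rw [integral_polar (f := fun x => conj (embF m g x) * embF n h x)
    (MemLp.integrable_mul m1c m2) (mm1.mul (measurable_embF n (measE h)))]
  rw [← integral_zero ℝ ℂ (μ := volume.restrict (Ioi (0 : ℝ)))]
  refine setIntegral_congr_fun measurableSet_Ioi ?_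
  intro r hr
  have hr0 : 0 < r := hr
  have h3 : ∀ θ, (r : ℂ) * (conj (embF m g (pt r θ)) * embF n h (pt r θ))
      = ((r : ℂ) * (((c0 / √r : ℝ) : ℂ) * conj (g r) * (((c0 / √r : ℝ) : ℂ) * h r)))
        * ex (n - m) θ := by
    intro θ
    rw [embF_pt m g hr0, embF_pt n h hr0, map_mul, map_mul, conj_ex, Complex.conj_ofReal,
      sub_eq_add_neg, ex_add]
    ring
  simp only [h3]
  rw [integral_const_mul, integral_ex (sub_ne_zero.mpr (Ne.symm hmn)), mul_zero]

lemma angular_integral (m : ℤ) (f : ℝ → ℂ) (φ : 𝓢(E2, ℂ)) {r : ℝ} (hr : r ∈ Ioi (0 : ℝ)) :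
    ∫ θ in Ioo (-π) π, (r : ℂ) * (embF m f (pt r θ) * φ (pt r θ)) = f r * chi m φ r := by
  have hr0 : 0 < r := hr
  have hs : 0 < √r := Real.sqrt_pos.mpr hr0
  have h3 : ∀ θ, (r : ℂ) * (embF m f (pt r θ) * φ (pt r θ))
      = ((c0 : ℂ) * ((√r : ℝ) : ℂ) * f r) * (ex m θ * φ (pt r θ)) := by
    intro θ
    have h4 : (r : ℂ) * ((c0 / √r : ℝ) : ℂ) = c0 * ((√r : ℝ) : ℂ) := by
      rw [← Complex.ofReal_mul, ← Complex.ofReal_mul]
      congr 1
      have h4 : (√r) ^ 2 = r := Real.sq_sqrt hr0.le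
      field_simp
      rw [h4]
      ring
    rw [embF_pt m f hr0]
    linear_combination (ex m θ * f r * φ (pt r θ)) * h4
  simp only [h3]
  rw [integral_const_mul, chi, Ac, ← integral_Ioc_eq_integral_Ioo,
    ← intervalIntegral.integral_of_le (by linarith [Real.pi_pos])]
  ring

lemma integrable_embF_mul (m : ℤ) {f : ℝ → ℂ} (hf : Measurable f) (h : MemLp f 2 μ₀)
    (φ : 𝓢(E2, ℂ)) : Integrable (fun x => embF m f x * φ x) volume :=
  MemLp.integrable_mul (memLp_embF m hf h) (φ.memLp 2 volume)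

/-- Pairing of an embedded function with a Schwartz function. -/
theorem integral_embF_mul (m : ℤ) {f : ℝ → ℂ} (hf : Measurable f) (h : MemLp f 2 μ₀)
    (φ : 𝓢(E2, ℂ)) :
    ∫ x, embF m f x * φ x = ∫ r in Ioi (0 : ℝ), f r * chi m φ r := by
  rw [integral_polar (f := fun x => embF m f x * φ x) (integrable_embF_mul m hf h φ)
    ((measurable_embF m hf).mul φ.continuous.measurable)]
  refine setIntegral_congr_fun measurableSet_Ioi ?_
  intro r hr
  exact angular_integral m f φ hr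

theorem integrable_mul_chi (m : ℤ) {f : ℝ → ℂ} (hf : Measurable f) (h : MemLp f 2 μ₀)
    (φ : 𝓢(E2, ℂ)) : Integrable (fun r => f r * chi m φ r) μ₀ := by
  have h1 := (integrable_polar (f := fun x => embF m f x * φ x) (integrable_embF_mul m hf h φ)
    ((measurable_embF m hf).mul φ.continuous.measurable)).integral_prod_left
  refine h1.congr ?_
  filter_upwards [ae_restrict_mem measurableSet_Ioi] with r hr
  exact angular_integral m f φ hr

end Pool.Agent.Helper93.CLTd
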