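import Pool.Agent.Helper93.CLTd.Emb

/-! The planar eigenfunction equation, in the sense of distributions. -/

namespace Pool.Agent.Helper93.CLTd

open MeasureTheory Set Pool.Agent.Helper98.CLTd LineDeriv
open scoped ComplexConjugate ENNReal SchwartzMap Real

lemma norm_toC (x : E2) : ‖((x 0 : ℂ) + x 1 * Complex.I)‖ = ‖x‖ := by
  rw [← Complex.orthonormalBasisOneI_repr_symm_apply, LinearIsometryEquiv.norm_map]

lemma norm_ang_le (m : ℤ) (x : E2) : ‖ang m x‖ ≤ 1 := by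
  rw [ang, norm_zpow, norm_div, norm_toC, Complex.norm_real, Real.norm_eq_abs, abs_norm]
  by_cases h : ‖x‖ = 0
  · rw [h, div_zero]
    by_cases hm : m = 0
    · rw [hm]; simp
    · rw [zero_zpow m hm]; norm_num
  · rw [div_self h, one_zpow]

lemma ang_mul (m k : ℤ) {x : E2} (hx : 0 < ‖x‖) : ang m x * ang k x = ang (m + k) x := by
  rw [ang, ang, ang, zpow_add₀]
  rw [← norm_ne_zero_iff, norm_div, norm_toC, Complex.norm_real, Real.norm_eq_abs, abs_norm,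
    div_self hx.ne']
  norm_num

lemma normSq_eq (x : E2) : ((x 0 : ℂ) + x 1 * Complex.I) * ((x 0 : ℂ) - x 1 * Complex.I)
    = (‖x‖ : ℂ) ^ 2 := by
  have h := norm_toC x
  rw [← h, ← Complex.mul_conj']
  congr 1
  simp [Complex.conj_ofReal]
  ring

lemma Vpl_eq (v0 a b : ℝ → ℂ) (x : E2) :
    Vpl v0 a b x = v0 ‖x‖ + a ‖x‖ * ang 2 x + b ‖x‖ * ang (-2) x := by
  rw [Vpl]
  by_cases hx : ‖x‖ = 0
  · simp [ang, hx]
  · have hx' : (‖x‖ : ℂ) ≠ 0 := by exact_mod_cast hx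
    have h1 := normSq_eq x
    have h0 : ((x 0 : ℂ) + x 1 * Complex.I) ≠ 0 := by
      rw [← norm_ne_zero_iff, norm_toC]; exact hx
    have h2 : ang 2 x = (((x 0 : ℂ) + x 1 * Complex.I) ^ 2 / (‖x‖ : ℂ) ^ 2) := by
      rw [ang, show (2 : ℤ) = ((2 : ℕ) : ℤ) by norm_num, zpow_natCast, div_pow]
    have h3 : ang (-2) x = (((x 0 : ℂ) - x 1 * Complex.I) ^ 2 / (‖x‖ : ℂ) ^ 2) := by
      rw [ang, show (-2 : ℤ) = -((2 : ℕ) : ℤ) by norm_num, zpow_neg, zpow_natCast, div_pow, inv_div,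
        div_eq_div_iff (pow_ne_zero 2 h0) (pow_ne_zero 2 hx')]
      linear_combination (-((‖x‖ : ℂ) ^ 2 + ((x 0 : ℂ) + x 1 * Complex.I) * ((x 0 : ℂ) - x 1 * Complex.I))) * h1
    rw [h2, h3]

/-- Pairing with a square integrable function. -/
lemma hasSum_pair {F : ℤ → L2d 2} {u : L2d 2} (h : HasSum F u) (ψ : E2 → ℂ)
    (hψ : MemLp ψ 2 volume) :
    HasSum (fun j => ∫ x, F j x * ψ x) (∫ x, u x * ψ x) := by
  have hc : MemLp (fun x => conj (ψ x)) 2 volume := by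
    refine hψ.of_le (Complex.continuous_conj.comp_aestronglyMeasurable hψ.1) ?_
    filter_upwards with x; simp
  have key : ∀ f : L2d 2, innerSL ℂ (hc.toLp _ : L2d 2) f = ∫ x, f x * ψ x := by
    intro f
    rw [innerSL_apply_apply, L2.inner_def]
    apply integral_congr_ae
    filter_upwards [hc.coeFn_toLp] with x hx
    rw [hx, RCLike.inner_apply]
    simp
  have h2 := h.mapL (innerSL ℂ (hc.toLp _ : L2d 2))
  simp only [key] at h2
  exact h2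

lemma orth : OrthogonalFamily ℂ (fun _ : ℤ => E) (fun j : ℤ => emb (2 * j + 1)) := by
  intro i j hij v w
  refine inner_emb ?_ v w
  intro h; apply hij; omega

lemma norm_sq_E (f : E) : ‖f‖ ^ 2 = ∫ r in Ioi (0 : ℝ), ‖f r‖ ^ 2 := by
  have h := inner_self_eq_norm_sq_to_K (𝕜 := ℂ) f
  rw [L2.inner_def] at h
  have h2 : ∫ r in Ioi (0 : ℝ), inner ℂ (f r) (f r) = ((∫ r in Ioi (0 : ℝ), ‖f r‖ ^ 2 : ℝ) : ℂ) := by
    rw [← integral_complex_ofReal]
    apply integral_congr_ae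
    filter_upwards with r
    rw [inner_self_eq_norm_sq_to_K]
    push_cast; rfl
  have h3 := h2.symm.trans h
  have h4 : ((∫ r in Ioi (0 : ℝ), ‖f r‖ ^ 2 : ℝ) : ℂ) = ((‖f‖ ^ 2 : ℝ) : ℂ) := by
    rw [h3]; push_cast; rfl
  exact (Complex.ofReal_injective h4).symm

/-- Pairing of an embedded function times an angular multiplier. -/
theorem integral_emb_mul (m k : ℤ) (w : ℝ → ℂ) (hw : Measurable w) {C : ℝ} (hC : ∀ r, ‖w r‖ ≤ C)
    (g : E) (φ : 𝓢(E2, ℂ)) :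
    ∫ x, emb m g x * (w ‖x‖ * ang k x * φ x) = ∫ r in Ioi (0 : ℝ), (w r * g r) * chi (m + k) φ r := by
  rw [← integral_embF_mul (m + k) (f := fun r => w r * g r) (hw.mul (measE g))
    (memLp_mul_of_bound hw hC g) φ]
  apply integral_congr_ae
  filter_upwards [emb_ae m g, ae_norm (ae_restrict_mem (measurableSet_Ioi (a := (0 : ℝ))))] with x h1 h2
  rw [h1, embF, embF, ← ang_mul m k h2]
  ring

lemma memLp_mult (k : ℤ) (w : ℝ → ℂ) (hw : Measurable w) {C : ℝ} (hC : ∀ r, ‖w r‖ ≤ C)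
    (φ : 𝓢(E2, ℂ)) : MemLp (fun x => w ‖x‖ * ang k x * φ x) 2 volume := by
  have hC0 : 0 ≤ C := (norm_nonneg _).trans (hC 0)
  refine MemLp.of_le_mul (c := C) (φ.memLp 2 volume) ?_ ?_
  · exact (((hw.comp measurable_norm).mul (measurable_ang k)).mul
      φ.continuous.measurable).aestronglyMeasurable
  · filter_upwards with x
    rw [norm_mul, norm_mul]
    refine mul_le_mul_of_nonneg_right ?_ (norm_nonneg _)
    calc ‖w ‖x‖‖ * ‖ang k x‖ ≤ C * 1 :=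
          mul_le_mul (hC _) (norm_ang_le k x) (norm_nonneg _) hC0
      _ = C := mul_one C

theorem plane_distrib (v0 a b : ℝ → ℂ) (hv0 : Measurable v0) (ha : Measurable a) (hb : Measurable b)
    (Cv : ℝ) (hv0C : ∀ r, ‖v0 r‖ ≤ Cv) (haC : ∀ r, ‖a r‖ ≤ Cv) (hbC : ∀ r, ‖b r‖ ≤ Cv)
    (s : ℂ) (g : ℤ → ℝ → ℂ)
    (hg : ∀ j, MemLp (g j) 2 μ₀)
    (hsum : Summable fun j => ∫ r in Ioi (0 : ℝ), ‖g j r‖ ^ 2)
    (hne : ∃ j, ¬ (g j =ᵐ[μ₀] 0))
    (heq : ∀ (j : ℤ) (χ χ' χ'' : ℝ → ℂ), Adm χ χ' χ'' →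
      (∫ r in Ioi (0 : ℝ), g j r *
          (-χ'' r + (((2 * (j : ℂ) + 1) ^ 2 - 1 / 4) / (r : ℂ) ^ 2 + v0 r + s ^ 2) * χ r))
        + ∫ r in Ioi (0 : ℝ), (a r * g (j - 1) r + b r * g (j + 1) r) * χ r = 0) :
    ∃ u : L2d 2, u ≠ 0 ∧ ∀ φ : 𝓢(E2, ℂ),
      ∫ x, (Vpl v0 a b x * u x - ((-s ^ 2) • u : L2d 2) x) * φ x = ∫ x, u x * lap φ x := by
  set G : ℤ → E := fun j => (hg j).toLp _ with hG
  have hGg : ∀ j, ∀ᵐ r ∂μ₀, G j r = g j r := fun j => (hg j).coeFn_toLp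
  have hGsum : Summable fun j => ‖G j‖ ^ 2 := by
    refine hsum.congr fun j => ?_
    rw [norm_sq_E]
    apply integral_congr_ae
    filter_upwards [hGg j] with r hr
    rw [hr]
  have hsummable : Summable fun j => emb (2 * j + 1) (G j) :=
    (orth.summable_iff_norm_sq_summable G).mpr hGsum
  obtain ⟨u, hu⟩ := hsummable
  refine ⟨u, ?_, ?_⟩
  · rintro rfl
    obtain ⟨j, hj⟩ := hne
    apply hj
    have h1 := hu.mapL (innerSL ℂ (emb (2 * j + 1) (G j)))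
    have h2 : ∀ i, innerSL ℂ (emb (2 * j + 1) (G j)) (emb (2 * i + 1) (G i))
        = if i = j then ((‖G j‖ : ℂ) ^ 2) else 0 := by
      intro i
      rw [innerSL_apply_apply]
      by_cases hij : i = j
      · subst hij
        rw [if_pos rfl, inner_self_eq_norm_sq_to_K, LinearIsometry.norm_map]; rfl
      · rw [if_neg hij]
        exact inner_emb (by omega) _ _
    simp only [h2, map_zero] at h1
    have h3 := h1.unique (hasSum_ite_eq j ((‖G j‖ : ℂ) ^ 2))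
    have h4 : G j = 0 := by
      have : (‖G j‖ : ℂ) ^ 2 = 0 := h3.symm
      rw [sq_eq_zero_iff] at this
      exact norm_eq_zero.mp (by exact_mod_cast this)
    have h5 : ∀ᵐ r ∂μ₀, G j r = 0 := by
      rw [h4]; exact Lp.coeFn_zero ℂ 2 μ₀
    filter_upwards [hGg j, h5] with r h6 h7
    rw [← h6, h7]; rfl
  intro φ
  have hodd : ∀ j : ℤ, (2 * j + 1 : ℤ) ≠ 0 := fun j => by omega
  -- the sums
  have hvs : Measurable fun r => v0 r + s ^ 2 := hv0.add_const _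
  have hvsC : ∀ r, ‖v0 r + s ^ 2‖ ≤ Cv + ‖s ^ 2‖ := fun r =>
    (norm_add_le _ _).trans (add_le_add_left (hv0C r) _)
  have S0 := hasSum_pair hu (lap φ) ((lap φ).memLp 2 volume)
  have S1 := hasSum_pair hu _ (memLp_mult 0 (fun r => v0 r + s ^ 2) hvs hvsC φ)
  have S2 := hasSum_pair hu _ (memLp_mult 2 a ha haC φ)
  have S3 := hasSum_pair hu _ (memLp_mult (-2) b hb hbC φ)
  have S2' := (Equiv.subRight (1 : ℤ)).hasSum_iff.mpr S2
  have S3' := (Equiv.addRight (1 : ℤ)).hasSum_iff.mpr S3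
  have S := (S1.add S2').add S3'
  have hterm : ∀ j : ℤ, ∫ x, emb (2 * j + 1) (G j) x * lap φ x
      = ((∫ x, emb (2 * j + 1) (G j) x * ((v0 ‖x‖ + s ^ 2) * ang 0 x * φ x))
        + ∫ x, emb (2 * (j - 1) + 1) (G (j - 1)) x * (a ‖x‖ * ang 2 x * φ x))
        + ∫ x, emb (2 * (j + 1) + 1) (G (j + 1)) x * (b ‖x‖ * ang (-2) x * φ x) := by
    intro j
    have t0 : ∫ x, emb (2 * j + 1) (G j) x * lap φ x
        = ∫ r in Ioi (0 : ℝ), G j r * chi (2 * j + 1) (lap φ) r := by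
      rw [← integral_embF_mul (2 * j + 1) (measE (G j)) (Lp.memLp (G j)) (lap φ)]
      apply integral_congr_ae
      filter_upwards [emb_ae (2 * j + 1) (G j)] with x hx
      rw [hx]
    have t1 := integral_emb_mul (2 * j + 1) 0 (fun r => v0 r + s ^ 2) hvs hvsC (G j) φ
    have t2 := integral_emb_mul (2 * (j - 1) + 1) 2 a ha haC (G (j - 1)) φ
    have t3 := integral_emb_mul (2 * (j + 1) + 1) (-2) b hb hbC (G (j + 1)) φ
    rw [add_zero] at t1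
    rw [show 2 * (j - 1) + 1 + 2 = 2 * j + 1 by ring] at t2
    rw [show 2 * (j + 1) + 1 + -2 = 2 * j + 1 by ring] at t3
    rw [t0, t1, t2, t3]
    have I0 := integrable_mul_chi (2 * j + 1) (measE (G j)) (Lp.memLp (G j)) (lap φ)
    have I1 := integrable_mul_chi (2 * j + 1) (f := fun r => (v0 r + s ^ 2) * G j r)
      (hvs.mul (measE (G j))) (memLp_mul_of_bound hvs hvsC (G j)) φ
    have I2 := integrable_mul_chi (2 * j + 1) (f := fun r => a r * G (j - 1) r)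
      (ha.mul (measE (G (j - 1)))) (memLp_mul_of_bound ha haC (G (j - 1))) φ
    have I3 := integrable_mul_chi (2 * j + 1) (f := fun r => b r * G (j + 1) r)
      (hb.mul (measE (G (j + 1)))) (memLp_mul_of_bound hb hbC (G (j + 1))) φ
    have h1 := heq j _ _ _ (adm_chi (2 * j + 1) (hodd j) φ)
    have e1 : ∫ r in Ioi (0 : ℝ), g j r * (-chi'' (2 * j + 1) φ r
          + (((2 * (j : ℂ) + 1) ^ 2 - 1 / 4) / (r : ℂ) ^ 2 + v0 r + s ^ 2) * chi (2 * j + 1) φ r)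
        = (∫ r in Ioi (0 : ℝ), ((v0 r + s ^ 2) * G j r) * chi (2 * j + 1) φ r)
          - ∫ r in Ioi (0 : ℝ), G j r * chi (2 * j + 1) (lap φ) r := by
      rw [← integral_sub I1 I0]
      apply integral_congr_ae
      filter_upwards [hGg j, ae_restrict_mem (measurableSet_Ioi (a := (0 : ℝ)))] with r h2 h3
      rw [chi_lap (2 * j + 1) φ h3, h2]
      push_cast
      ring
    have e2 : ∫ r in Ioi (0 : ℝ), (a r * g (j - 1) r + b r * g (j + 1) r) * chi (2 * j + 1) φ r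
        = (∫ r in Ioi (0 : ℝ), (a r * G (j - 1) r) * chi (2 * j + 1) φ r)
          + ∫ r in Ioi (0 : ℝ), (b r * G (j + 1) r) * chi (2 * j + 1) φ r := by
      rw [← integral_add I2 I3]
      apply integral_congr_ae
      filter_upwards [hGg (j - 1), hGg (j + 1)] with r h2 h3
      rw [h2, h3]
      ring
    rw [e1, e2] at h1
    linear_combination -h1
  have hfun : (fun j : ℤ => ∫ x, emb (2 * j + 1) (G j) x * lap φ x)
      = fun j : ℤ => ((∫ x, emb (2 * j + 1) (G j) x * ((v0 ‖x‖ + s ^ 2) * ang 0 x * φ x))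
        + ∫ x, emb (2 * (j - 1) + 1) (G (j - 1)) x * (a ‖x‖ * ang 2 x * φ x))
        + ∫ x, emb (2 * (j + 1) + 1) (G (j + 1)) x * (b ‖x‖ * ang (-2) x * φ x) := funext hterm
  rw [hfun] at S0
  have hfin := S0.unique S
  rw [hfin]
  have hum : MemLp (u : E2 → ℂ) 2 volume := Lp.memLp u
  have J1 : Integrable (fun x => u x * ((v0 ‖x‖ + s ^ 2) * ang 0 x * φ x)) volume :=
    MemLp.integrable_mul hum (memLp_mult 0 (fun r => v0 r + s ^ 2) hvs hvsC φ)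
  have J2 : Integrable (fun x => u x * (a ‖x‖ * ang 2 x * φ x)) volume :=
    MemLp.integrable_mul hum (memLp_mult 2 a ha haC φ)
  have J3 : Integrable (fun x => u x * (b ‖x‖ * ang (-2) x * φ x)) volume :=
    MemLp.integrable_mul hum (memLp_mult (-2) b hb hbC φ)
  have J12 : Integrable (fun x => u x * ((v0 ‖x‖ + s ^ 2) * ang 0 x * φ x)
      + u x * (a ‖x‖ * ang 2 x * φ x)) volume := J1.add J2
  rw [← integral_add J1 J2, ← integral_add J12 J3]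
  apply integral_congr_ae
  filter_upwards [Lp.coeFn_smul (-s ^ 2) u] with x hx
  rw [hx, Pi.smul_apply, smul_eq_mul, Vpl_eq]
  have : ang 0 x = 1 := by rw [ang, zpow_zero]
  rw [this]
  ring

lemma measurable_Vpl (v0 a b : ℝ → ℂ) (hv0 : Measurable v0) (ha : Measurable a)
    (hb : Measurable b) : Measurable (Vpl v0 a b) := by
  have h : Vpl v0 a b = fun x => v0 ‖x‖ + a ‖x‖ * ang 2 x + b ‖x‖ * ang (-2) x :=
    funext (Vpl_eq v0 a b)
  rw [h]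
  exact ((hv0.comp measurable_norm).add ((ha.comp measurable_norm).mul (measurable_ang 2))).add
    ((hb.comp measurable_norm).mul (measurable_ang (-2)))

lemma norm_Vpl_le (v0 a b : ℝ → ℂ) (Cv : ℝ) (hv0C : ∀ r, ‖v0 r‖ ≤ Cv) (haC : ∀ r, ‖a r‖ ≤ Cv)
    (hbC : ∀ r, ‖b r‖ ≤ Cv) (x : E2) : ‖Vpl v0 a b x‖ ≤ 3 * Cv := by
  have hC0 : 0 ≤ Cv := (norm_nonneg _).trans (hv0C 0)
  rw [Vpl_eq]
  have h1 : ‖a ‖x‖ * ang 2 x‖ ≤ Cv * 1 := by
    rw [norm_mul]; exact mul_le_mul (haC _) (norm_ang_le _ _) (norm_nonneg _) hC0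
  have h2 : ‖b ‖x‖ * ang (-2) x‖ ≤ Cv * 1 := by
    rw [norm_mul]; exact mul_le_mul (hbC _) (norm_ang_le _ _) (norm_nonneg _) hC0
  have h3 := hv0C ‖x‖
  calc _ ≤ ‖v0 ‖x‖ + a ‖x‖ * ang 2 x‖ + ‖b ‖x‖ * ang (-2) x‖ := norm_add_le _ _
    _ ≤ (‖v0 ‖x‖‖ + ‖a ‖x‖ * ang 2 x‖) + ‖b ‖x‖ * ang (-2) x‖ := by gcongr; exact norm_add_le _ _
    _ ≤ 3 * Cv := by linarith

/-- (P), with (P1) as a hypothesis. -/
theorem plane_eigen_of_P1
    (P1 : ∀ (V : EuclideanSpace ℝ (Fin 2) → ℂ) (_ : Measurable V)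
      (C : ℝ) (_ : ∀ x, ‖V x‖ ≤ C) (u g : L2d 2)
      (_ : ∀ φ : 𝓢(EuclideanSpace ℝ (Fin 2), ℂ),
        ∫ x, (V x * u x - g x) * φ x
          = ∫ x, u x * ∑ i : Fin 2, fderiv ℝ (fun y => fderiv ℝ φ y (EuclideanSpace.single i 1)) x
              (EuclideanSpace.single i 1)), HGraph 1 V u g)
    (v0 a b : ℝ → ℂ) (hv0 : Measurable v0) (ha : Measurable a) (hb : Measurable b)
    (Cv : ℝ) (hv0C : ∀ r, ‖v0 r‖ ≤ Cv) (haC : ∀ r, ‖a r‖ ≤ Cv) (hbC : ∀ r, ‖b r‖ ≤ Cv)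
    (s : ℂ) (g : ℤ → ℝ → ℂ)
    (hg : ∀ j, MemLp (g j) 2 μ₀)
    (hsum : Summable fun j => ∫ r in Ioi (0 : ℝ), ‖g j r‖ ^ 2)
    (hne : ∃ j, ¬ (g j =ᵐ[μ₀] 0))
    (heq : ∀ (j : ℤ) (χ χ' χ'' : ℝ → ℂ), Adm χ χ' χ'' →
      (∫ r in Ioi (0 : ℝ), g j r *
          (-χ'' r + (((2 * (j : ℂ) + 1) ^ 2 - 1 / 4) / (r : ℂ) ^ 2 + v0 r + s ^ 2) * χ r))
        + ∫ r in Ioi (0 : ℝ), (a r * g (j - 1) r + b r * g (j + 1) r) * χ r = 0) :
    ∃ u : L2d 2, u ≠ 0 ∧ HGraph 1 (Vpl v0 a b) u ((-s ^ 2) • u) := by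
  obtain ⟨u, hu, h⟩ := plane_distrib v0 a b hv0 ha hb Cv hv0C haC hbC s g hg hsum hne heq
  refine ⟨u, hu, P1 _ (measurable_Vpl v0 a b hv0 ha hb) (3 * Cv)
    (norm_Vpl_le v0 a b Cv hv0C haC hbC) u _ ?_⟩
  intro φ
  rw [h φ]
  simp only [lap_apply]

end Pool.Agent.Helper93.CLTd
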