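import Pool.Agent.Helper93.CLTd.Plane
import Pool.Agent.Helper50.CLTd.FourierD

/-! Module (P): from channel functions to an eigenfunction in the plane. -/

namespace Pool.Agent.Helper93.CLTd

open MeasureTheory Set Pool.Agent.Helper98.CLTd
open scoped ComplexConjugate ENNReal SchwartzMap

/-- (P) -/
theorem plane_eigen (v0 a b : ℝ → ℂ) (hv0 : Measurable v0) (ha : Measurable a) (hb : Measurable b)
    (Cv : ℝ) (hv0C : ∀ r, ‖v0 r‖ ≤ Cv) (haC : ∀ r, ‖a r‖ ≤ Cv) (hbC : ∀ r, ‖b r‖ ≤ Cv)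
    (s : ℂ) (g : ℤ → ℝ → ℂ)
    (hg : ∀ j, MemLp (g j) 2 μ₀)
    (hsum : Summable fun j => ∫ r in Ioi (0 : ℝ), ‖g j r‖ ^ 2)
    (hne : ∃ j, ¬ (g j =ᵐ[μ₀] 0))
    (heq : ∀ (j : ℤ) (χ χ' χ'' : ℝ → ℂ), Adm χ χ' χ'' →
      (∫ r in Ioi (0 : ℝ), g j r *
          (-χ'' r + (((2 * (j : ℂ) + 1) ^ 2 - 1 / 4) / (r : ℂ) ^ 2 + v0 r + s ^ 2) * χ r))
        + ∫ r in Ioi (0 : ℝ), (a r * g (j - 1) r + b r * g (j + 1) r) * χ r = 0) :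
    ∃ u : L2d 2, u ≠ 0 ∧ HGraph 1 (Vpl v0 a b) u ((-s ^ 2) • u) :=
  plane_eigen_of_P1 (fun V hV C hC u g h => Pool.Agent.Helper50.CLTd.hgraph_of_distrib V hV C hC u g h)
    v0 a b hv0 ha hb Cv hv0C haC hbC s g hg hsum hne heq

end Pool.Agent.Helper93.CLTd
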