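import Pool.Agent.Helper98.CLTd.Radial

/-! Polar coordinates on `EuclideanSpace ℝ (Fin 2)`. -/

namespace Pool.Agent.Helper93.CLTd

open MeasureTheory Set Pool.Agent.Helper98.CLTd
open scoped ComplexConjugate ENNReal SchwartzMap Real

abbrev E2 : Type := EuclideanSpace ℝ (Fin 2)

/-- the unit vector of angle `θ`. -/
noncomputable def dir (θ : ℝ) : E2 := !₂[Real.cos θ, Real.sin θ]

/-- the point with polar coordinates `(r, θ)`. -/
noncomputable def pt (r θ : ℝ) : E2 := r • dir θ

lemma pt_zero' (r θ : ℝ) : pt r θ 0 = r * Real.cos θ := by simp [pt, dir]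

lemma pt_one' (r θ : ℝ) : pt r θ 1 = r * Real.sin θ := by simp [pt, dir]

lemma norm_dir (θ : ℝ) : ‖dir θ‖ = 1 := by
  rw [EuclideanSpace.norm_eq]
  simp [dir, Fin.sum_univ_two]

lemma norm_pt (r θ : ℝ) : ‖pt r θ‖ = |r| := by
  rw [pt, norm_smul, norm_dir, mul_one, Real.norm_eq_abs]

lemma continuous_dir : Continuous dir := by
  unfold dir
  refine (PiLp.continuous_toLp 2 _).comp ?_
  refine continuous_pi fun i => ?_
  fin_cases i
  · exact Real.continuous_cos
  · exact Real.continuous_sin

lemma continuous_pt : Continuous (fun p : ℝ × ℝ => pt p.1 p.2) := by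
  unfold pt
  exact continuous_fst.smul (continuous_dir.comp continuous_snd)

lemma measurable_pt : Measurable (fun p : ℝ × ℝ => pt p.1 p.2) := continuous_pt.measurable

lemma repr_polar (p : ℝ × ℝ) :
    Complex.orthonormalBasisOneI.repr (Complex.polarCoord.symm p) = pt p.1 p.2 := by
  ext i
  fin_cases i
  · simp [pt, dir, ← Complex.ofReal_cos]
  · simp [pt, dir, ← Complex.ofReal_sin]

theorem lintegral_polar {f : E2 → ℝ≥0∞} (hf : Measurable f) :
    ∫⁻ x, f x = ∫⁻ r in Ioi (0 : ℝ), ∫⁻ θ in Ioo (-π) π, ENNReal.ofReal r * f (pt r θ) := by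
  have h1 : ∫⁻ x, f x = ∫⁻ z : ℂ, f (Complex.orthonormalBasisOneI.repr z) :=
    (Complex.orthonormalBasisOneI.measurePreserving_repr.lintegral_comp hf).symm
  rw [h1, ← Complex.lintegral_comp_polarCoord_symm]
  simp_rw [repr_polar]
  rw [show polarCoord.target = Ioi (0 : ℝ) ×ˢ Ioo (-π) π from rfl, Measure.volume_eq_prod,
    ← Measure.prod_restrict, lintegral_prod]
  · rfl
  · refine Measurable.aemeasurable ?_
    exact (ENNReal.measurable_ofReal.comp measurable_fst).mul (hf.comp measurable_pt)

lemma integrable_polar {f : E2 → ℂ} (hf : Integrable f volume) (hfm : Measurable f) :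
    Integrable (fun p : ℝ × ℝ => (p.1 : ℂ) * f (pt p.1 p.2))
      ((volume.restrict (Ioi (0 : ℝ))).prod (volume.restrict (Ioo (-π) π))) := by
  refine ⟨?_, ?_⟩
  · refine Measurable.aestronglyMeasurable ?_
    exact (Complex.measurable_ofReal.comp measurable_fst).mul (hfm.comp measurable_pt)
  · have h1 := hf.2
    rw [HasFiniteIntegral, lintegral_polar hfm.enorm] at h1
    rw [HasFiniteIntegral, lintegral_prod]
    · refine lt_of_le_of_lt (le_of_eq ?_) h1
      refine setLIntegral_congr_fun measurableSet_Ioi ?_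
      intro r hr
      refine lintegral_congr fun θ => ?_
      rw [enorm_mul]
      congr 1
      rw [← ofReal_norm, Complex.norm_real, Real.norm_eq_abs, abs_of_pos hr]
    · refine Measurable.aemeasurable ?_
      exact ((Complex.measurable_ofReal.comp measurable_fst).mul (hfm.comp measurable_pt)).enorm

theorem integral_polar {f : E2 → ℂ} (hf : Integrable f volume) (hfm : Measurable f) :
    ∫ x, f x = ∫ r in Ioi (0 : ℝ), ∫ θ in Ioo (-π) π, (r : ℂ) * f (pt r θ) := by
  have h1 : ∫ x, f x = ∫ z : ℂ, f (Complex.orthonormalBasisOneI.repr z) :=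
    (Complex.orthonormalBasisOneI.measurePreserving_repr.integral_comp
      (Complex.orthonormalBasisOneI.repr.toHomeomorph.measurableEmbedding) _).symm
  rw [h1, ← Complex.integral_comp_polarCoord_symm]
  simp_rw [repr_polar]
  rw [show polarCoord.target = Ioi (0 : ℝ) ×ˢ Ioo (-π) π from rfl, Measure.volume_eq_prod,
    ← Measure.prod_restrict]
  simp_rw [Complex.real_smul]
  exact integral_prod _ (integrable_polar hf hfm)

/-- a property that holds for almost every radius holds at almost every point. -/
lemma ae_norm {P : ℝ → Prop} (h : ∀ᵐ r ∂μ₀, P r) : ∀ᵐ x : E2, P ‖x‖ := by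
  obtain ⟨s, hs1, hs2, hs3⟩ := exists_measurable_superset_of_null (ae_iff.mp h)
  rw [ae_iff]
  have h2 : (volume : Measure E2) ((fun x : E2 => ‖x‖) ⁻¹' s) = 0 := by
    rw [← lintegral_indicator_one (measurable_norm hs2), lintegral_polar]
    · have h3 : ∀ r ∈ Ioi (0 : ℝ), (∫⁻ θ in Ioo (-π) π, ENNReal.ofReal r *
          ((fun x : E2 => ‖x‖) ⁻¹' s).indicator 1 (pt r θ)) =
            (s.indicator 1 r) * (ENNReal.ofReal r * volume (Ioo (-π) π)) := by
        intro r hr
        have h4 : ∀ θ, ((fun x : E2 => ‖x‖) ⁻¹' s).indicator (1 : E2 → ℝ≥0∞) (pt r θ)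
            = s.indicator 1 r := by
          intro θ
          by_cases hrs : r ∈ s
          · rw [indicator_of_mem hrs, indicator_of_mem]; · rfl
            · rw [mem_preimage, norm_pt, abs_of_pos (mem_Ioi.mp hr)]; exact hrs
          · rw [indicator_of_notMem hrs, indicator_of_notMem]
            rw [mem_preimage, norm_pt, abs_of_pos (mem_Ioi.mp hr)]; exact hrs
        simp_rw [h4]
        rw [lintegral_const, Measure.restrict_apply_univ]
        ring
      rw [setLIntegral_congr_fun measurableSet_Ioi h3]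
      have h5 : ∀ᵐ r ∂μ₀, r ∉ s := by
        rw [ae_iff]
        simpa using hs3
      rw [lintegral_eq_zero_iff' ?_]
      · filter_upwards [h5] with r hr
        rw [indicator_of_notMem hr]; simp
      · refine AEMeasurable.mul ?_ ?_
        · exact (measurable_one.indicator hs2).aemeasurable
        · exact (ENNReal.measurable_ofReal.mul measurable_const).aemeasurable
    · exact measurable_one.indicator (measurable_norm hs2)
  refine measure_mono_null ?_ h2
  intro x hx
  exact hs1 hx

end Pool.Agent.Helper93.CLTd
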